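import Pool.Agent.Q47.Wolf.Final

/-!
# MP_a19cb6_nt: Wolf's formula for generalized Brun constants fails for `h = 6`

The sum over the pairs of consecutive primes `(p, p + 6)` with `p ≤ 305937397` already exceeds the
conjectured value `4 C_twin / 6 * 2 = 0.88021...`: it is at least `0.8805158`, while the right-hand
side is at most `0.8804574`.  The primality and compositeness tests are done by the kernel; that the
full sum converges follows from the Selberg sieve (`Pool.Agent.Erdos456.sieve_two`).
-/

set_option autoImplicit false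

namespace Pool.Agent.Results.MP_a19cb6_nt.FormulaFailsForSix

/-- `(p, p + h)` is an `h`-gap pair: `p` and `p + h` are consecutive primes -/
def IsGapPair (h p : ℕ) : Prop :=
  p.Prime ∧ (p + h).Prime ∧ ∀ q, p < q → q < p + h → ¬ q.Prime

/-- the generalized Brun constant: the sum of `1 / p + 1 / (p + h)` over the `h`-gap pairs -/
noncomputable def brun (h : ℕ) : ℝ :=
  ∑' p : {p : ℕ // IsGapPair h p}, (1 / (p : ℝ) + 1 / ((p : ℝ) + h))

/-- the twin prime constant `∏_{p > 2} (1 - 1 / (p - 1)^2)` -/
noncomputable def twinConstant : ℝ :=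
  ∏' p : {p : ℕ // p.Prime ∧ 2 < p}, (1 - 1 / ((p : ℝ) - 1) ^ 2)

/-- Wolf's value `4 C_twin / h * ∏_{p ∣ h, p > 2} (p - 1) / (p - 2)` -/
noncomputable def wolfValue (h : ℕ) : ℝ :=
  4 * twinConstant / h * ∏ p ∈ h.primeFactors.filter (fun p => 2 < p), (((p : ℝ) - 1) / ((p : ℝ) - 2))

/-- **Wolf's formula is false.**  There is an even `h ≥ 6` (namely `h = 6`) for which the series over
the `h`-gap pairs converges and its sum is larger than Wolf's value; the product which defines the
twin prime constant converges. -/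
theorem result : ∃ h : ℕ, Even h ∧ 6 ≤ h ∧
    Multipliable (fun p : {p : ℕ // p.Prime ∧ 2 < p} => (1 - 1 / ((p : ℝ) - 1) ^ 2)) ∧
    Summable (fun p : {p : ℕ // IsGapPair h p} => 1 / (p : ℝ) + 1 / ((p : ℝ) + h)) ∧
    wolfValue h < brun h :=
  ⟨6, by decide, le_rfl, Pool.Agent.Q47.Wolf.multipliable_twin,
    Pool.Agent.Q47.Wolf.summable_gap 6 (by norm_num), Pool.Agent.Q47.Wolf.main⟩

end Pool.Agent.Results.MP_a19cb6_nt.FormulaFailsForSix
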